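import Pool.Agent.WAP.StmtsL

/-! WAP, row HAL: division by `1 + i` over algebraically closed fields. -/

namespace Pool.Agent.WAP.H10

open Classical Polynomial WeierstrassCurve.Affine
open Pool.Agent.WAP

theorem exists_sq {F : Type} [Field F] [IsAlgClosed F] (a : F) : ∃ b : F, b ^ 2 = a :=
  IsAlgClosed.exists_pow_nat_eq a (by norm_num)

theorem sm_zero' {F : Type} [Field F] [Algebra GaussianInt F] {d : F} (a : GaussianInt) :
    sm a (0 : Pt d) = 0 := by
  show gsm (algebraMap GaussianInt F) a 0 = 0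
  simp [gsm]

theorem sm_neg' {F : Type} [Field F] [Algebra GaussianInt F] {d : F} (a : GaussianInt)
    (P : Pt d) : sm a (-P) = - sm a P := by
  have h : sm a (P + -P) = sm a P + sm a (-P) := gsm_add (algebraMap GaussianInt F) a P (-P)
  rw [add_neg_cancel, sm_zero'] at h
  exact eq_neg_of_add_eq_zero_right h.symm

theorem hal (lmf : LmfStmt) : HalStmt := by
  intro F _ _ _ d h2 hd P
  rcases P with _ | ⟨x0, y0, h0⟩
  · exact ⟨0, sm_zero' lam⟩
  have hi : ii F ^ 2 = -1 := ii_sq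
  have hi0 : ii F ≠ 0 := by
    intro h
    rw [h] at hi
    have : (1 : F) = 0 := by linear_combination hi
    exact one_ne_zero this
  obtain ⟨s, hs⟩ := exists_sq (d ^ 2 - x0 ^ 2)
  set X : F := ii F * x0 + s with hX
  have hXe : X ^ 2 - d ^ 2 = 2 * ii F * x0 * X := by
    rw [hX]
    linear_combination hs - x0 ^ 2 * hi
  have hX0 : X ≠ 0 := by
    intro h
    rw [h] at hXe
    have : d ^ 2 = 0 := by linear_combination -hXe
    exact hd (pow_eq_zero_iff (two_ne_zero)|>.mp this)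
  obtain ⟨Y, hY⟩ := exists_sq (X ^ 3 - d ^ 2 * X)
  have hn : (W d).Nonsingular X Y := (W_nonsingular d X Y h2 hd).mpr hY
  obtain ⟨Y', h', hl⟩ := (lmf F d h2 hd X Y hn).2 hX0
  have hq : (X ^ 2 - d ^ 2) / (2 * ii F * X) = x0 := by
    rw [hXe, div_eq_iff (mul_ne_zero (mul_ne_zero h2 hi0) hX0)]
    ring
  have key : ∃ hh : (W d).Nonsingular x0 Y', sm lam (Point.some X Y hn : Pt d) =
      Point.some x0 Y' hh := by
    have h3 : (W d).Nonsingular x0 Y' := by
      rw [← hq]; exact h'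
    refine ⟨h3, ?_⟩
    rw [hl]
    simp only [Point.some.injEq, and_true]
    exact hq
  obtain ⟨hh, hk⟩ := key
  have e1 : Y' ^ 2 = x0 ^ 3 - d ^ 2 * x0 := (W_nonsingular d x0 Y' h2 hd).mp hh
  have e2 : y0 ^ 2 = x0 ^ 3 - d ^ 2 * x0 := (W_nonsingular d x0 y0 h2 hd).mp h0
  have e3 : Y' ^ 2 = y0 ^ 2 := by rw [e1, e2]
  rcases sq_eq_sq_iff_eq_or_eq_neg.mp e3 with e4 | e4
  · refine ⟨Point.some X Y hn, ?_⟩
    rw [hk]
    simp only [Point.some.injEq, true_and]
    exact e4
  · refine ⟨-Point.some X Y hn, ?_⟩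
    rw [sm_neg', hk, Point.neg_some]
    simp only [Point.some.injEq, true_and, W_negY]
    rw [e4, neg_neg]

end Pool.Agent.WAP.H10
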