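import Pool.Agent.WAP.StmtsP2

/-! WAP, row VEX: the valuation of a local field above 2. -/

set_option autoImplicit false

namespace Pool.Agent.WAP.H10

open Pool.Agent.WAP Pool.Agent.WAP.P2 Classical

/-- the imaginary unit of the Gaussian integers -/
def gI : GaussianInt := ⟨0, 1⟩

theorem lam_mul_lam : lam * lam = 2 * gI := by decide

theorem two_eq : (2 : GaussianInt) = (-gI) * (lam * lam) := by decide

theorem gI_unit : (-gI) * gI = 1 := by decide

theorem lam_norm : (lam : GaussianInt).norm = 2 := by decide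

theorem lam_dvd {a : GaussianInt} {m : ℤ} (h : a.re + a.im = 2 * m) : lam ∣ a := by
  refine ⟨⟨m, a.im - m⟩, ?_⟩
  apply Zsqrtd.ext
  · simp only [Zsqrtd.re_mul, lam]
    linarith
  · simp only [Zsqrtd.im_mul, lam]
    linarith

theorem vex : VexStmt := by
  intro F _ _ ϖ h h2
  have hnu : ¬ IsUnit ϖ := h.prime.not_isUnit
  have hA : ∀ a : GaussianInt, ¬ ϖ ∣ a → ‖algebraMap GaussianInt F a‖ = 1 := by
    intro a ha
    refine le_antisymm (h.int a) ?_
    by_contra hcon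
    push Not at hcon
    exact ha ((h.lt_one a).mp hcon)
  have hunit : ∀ a b : GaussianInt, a * b = 1 → ‖algebraMap GaussianInt F a‖ = 1 := by
    intro a b hab
    refine hA a (fun hd => hnu ?_)
    exact isUnit_of_dvd_one (hab ▸ Dvd.dvd.mul_right hd b)
  have hlam : ϖ ∣ lam := by
    have h3 : ϖ ∣ lam * lam := by
      rw [lam_mul_lam]
      exact Dvd.dvd.mul_right h2 _
    rcases h.prime.dvd_or_dvd h3 with h4 | h4 <;> exact h4
  obtain ⟨u, hu⟩ := hlam
  have hnorm : (ϖ : GaussianInt).norm * u.norm = 2 := by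
    rw [← lam_norm, hu, Zsqrtd.norm_mul]
  have hn0 : 0 ≤ (ϖ : GaussianInt).norm := GaussianInt.norm_nonneg ϖ
  have hn1 : (ϖ : GaussianInt).norm ≠ 1 := by
    intro h3
    apply hnu
    rw [← Zsqrtd.norm_eq_one_iff, h3]
    rfl
  have hu1 : u.norm = 1 := by
    have h3 : (ϖ : GaussianInt).norm ∣ 2 := ⟨_, hnorm.symm⟩
    have h4 : (ϖ : GaussianInt).norm ≤ 2 := Int.le_of_dvd (by norm_num) h3
    have h5 : (ϖ : GaussianInt).norm = 0 ∨ (ϖ : GaussianInt).norm = 2 := by omega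
    rcases h5 with h5 | h5
    · rw [h5] at hnorm; omega
    · rw [h5] at hnorm; omega
  have huu : ¬ ϖ ∣ u := by
    intro hd
    apply hnu
    refine isUnit_of_dvd_unit hd ?_
    rw [← Zsqrtd.norm_eq_one_iff, hu1]
    rfl
  have hq : ‖la F‖ = ‖algebraMap GaussianInt F ϖ‖ := by
    unfold la
    rw [hu, map_mul, norm_mul, hA u huu, mul_one]
  have hpos : 0 < ‖la F‖ := by rw [hq]; exact h.uni
  have hlt : ‖la F‖ < 1 := by rw [hq]; exact (h.lt_one ϖ).mpr dvd_rfl
  have hval : ∀ x : F, x ≠ 0 → ∃ n : ℤ, ‖x‖ = ‖la F‖ ^ n := by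
    intro x hx
    rw [hq]
    exact h.val x hx
  have hex : ∃ v : F → ℤ, ∀ x : F, x ≠ 0 → ‖x‖ = ‖la F‖ ^ (v x) := by
    refine ⟨fun x => if hx : x = 0 then 0 else Classical.choose (hval x hx), ?_⟩
    intro x hx
    simp only [dif_neg hx]
    exact Classical.choose_spec (hval x hx)
  obtain ⟨v, hv⟩ := hex
  have hinj : ∀ m n : ℤ, ‖la F‖ ^ m = ‖la F‖ ^ n → m = n := fun m n hmn =>
    zpow_right_injective₀ hpos hlt.ne hmn
  have hlt' : ∀ m n : ℤ, ‖la F‖ ^ m < ‖la F‖ ^ n ↔ n < m := fun m n =>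
    zpow_lt_zpow_iff_right_of_lt_one₀ hpos hlt
  have htwo : (2 : F) = algebraMap GaussianInt F (-gI) * (la F * la F) := by
    unfold la
    rw [← map_mul, ← map_mul, ← two_eq, map_ofNat]
  have hntwo : ‖(2 : F)‖ = ‖la F‖ ^ (2 : ℤ) := by
    rw [htwo, norm_mul, hunit (-gI) gI gI_unit, one_mul, norm_mul, zpow_ofNat, sq]
  have h2ne : (2 : F) ≠ 0 := by
    rw [← norm_pos_iff, hntwo]
    exact zpow_pos hpos 2
  refine ⟨v, hpos, hlt, hv, ?_, ?_, h2ne, ?_, ?_⟩
  · intro x y hx hy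
    apply hinj
    rw [zpow_add₀ hpos.ne', ← hv x hx, ← hv y hy, ← norm_mul, ← hv _ (mul_ne_zero hx hy)]
  · intro x y hx hy hxy
    by_contra hcon
    push Not at hcon
    obtain ⟨h3, h4⟩ := lt_min_iff.mp hcon
    have h5 := (hlt' _ _).mpr h3
    have h6 := (hlt' _ _).mpr h4
    rw [← hv _ hx, ← hv _ hxy] at h5
    rw [← hv _ hy, ← hv _ hxy] at h6
    exact absurd (h.ultra x y) (not_le.mpr (max_lt h5 h6))
  · apply hinj
    rw [← hv 2 h2ne, hntwo]
  · intro x hx hvx hx1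
    have hx1' : x - 1 ≠ 0 := sub_ne_zero.mpr hx1
    have hnx : ‖x‖ = 1 := by rw [hv x hx, hvx, zpow_zero]
    obtain ⟨a, ha⟩ := h.res x hnx.le
    have hda : ¬ ϖ ∣ a := by
      intro hd
      have h3 := (h.lt_one a).mpr hd
      have h4 := h.ultra (x - algebraMap GaussianInt F a) (algebraMap GaussianInt F a)
      rw [sub_add_cancel, hnx] at h4
      exact absurd h4 (not_le.mpr (max_lt ha h3))
    have hd1 : ϖ ∣ a - 1 := by
      rcases Int.even_or_odd' (a.re + a.im) with ⟨m, hm | hm⟩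
      · exact absurd (dvd_trans ⟨u, hu⟩ (lam_dvd hm)) hda
      · refine dvd_trans ⟨u, hu⟩ (lam_dvd (m := m) ?_)
        simp only [Zsqrtd.re_sub, Zsqrtd.im_sub, Zsqrtd.re_one, Zsqrtd.im_one]
        linarith
    have h3 := (h.lt_one (a - 1)).mpr hd1
    have h4 := h.ultra (x - algebraMap GaussianInt F a) (algebraMap GaussianInt F (a - 1))
    have h5 : x - algebraMap GaussianInt F a + algebraMap GaussianInt F (a - 1) = x - 1 := by
      rw [map_sub, map_one]; ring
    rw [h5] at h4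
    have h6 : ‖x - 1‖ < 1 := lt_of_le_of_lt h4 (max_lt ha h3)
    rw [hv _ hx1', ← zpow_zero ‖la F‖] at h6
    have h7 := (hlt' _ _).mp h6
    omega

end Pool.Agent.WAP.H10
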